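import Pool.Agent.Helper47.EP.Goals
import Pool.Agent.Helper17.PF.Grp

/-!
# Project EP (MP_5b9a11_al): packet BRM
-/

set_option autoImplicit false

namespace Pool.Agent.Helper36.EP.BRM

open MonoidAlgebra IsLocalRing Pool.Agent.Helper17.PF Pool.Agent.Helper47.EP

theorem coef {R : Type} [CommRing R] {G : Type} [Group G] [Fintype G]
    (x y : MonoidAlgebra R G) (h : G) :
    (x * y).coeff h = ∑ g : G, x.coeff g * y.coeff (g⁻¹ * h) := by
  classical
  have hsum : x * y = ∑ g : G, x.coeff g • (single g (1 : R) * y) := by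
    have h1 : x = ∑ g : G, x.coeff g • single g (1 : R) := by
      ext g
      simp [coeff_sum, coeff_single]
    conv_lhs => rw [h1]
    rw [Finset.sum_mul]
    refine Finset.sum_congr rfl fun g _ => ?_
    rw [smul_mul_assoc]
  rw [hsum, coeff_sum, Finsupp.finsetSum_apply]
  refine Finset.sum_congr rfl fun g _ => ?_
  rw [coeff_smul, Finsupp.smul_apply, coeff_single_mul_apply, one_mul, smul_eq_mul]

theorem br_coeff {𝒪 : Type} [CommRing 𝒪] [IsLocalRing 𝒪] {G : Type} [Group G] (P : Subgroup G)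
    (x : MonoidAlgebra 𝒪 G) (c : Subgroup.centralizer (P : Set G)) :
    (br P x).coeff c = residue 𝒪 (x.coeff c) := rfl

theorem conj_coeff {𝒪 : Type} [CommRing 𝒪] {G : Type} [Group G] (x : MonoidAlgebra 𝒪 G) (u g : G)
    (hx : single u (1 : 𝒪) * x * single u⁻¹ (1 : 𝒪) = x) :
    x.coeff (u * g * u⁻¹) = x.coeff g := by
  have h1 := congrArg (fun z : MonoidAlgebra 𝒪 G => z.coeff (u * g * u⁻¹)) hx
  simp only [coeff_single_mul_apply, coeff_mul_single_apply, one_mul, mul_one] at h1
  rw [← h1]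
  congr 1
  group

/-- Packet BRM. -/
theorem t : S_BRM := by
  classical
  intro p _ 𝒪 _ _ _ G _ _ P hP x y hx hy
  have : Fintype G := Fintype.ofFinite G
  have : Fintype (Subgroup.centralizer (P : Set G)) := Fintype.ofFinite _
  ext c
  rw [coef, br_coeff, coef, map_sum]
  let inst : MulAction P G :=
    { smul := fun a g => a * g * a⁻¹
      one_smul := by
        intro g
        change ((1 : P) : G) * g * ((1 : P) : G)⁻¹ = g
        simp
      mul_smul := by
        intro a b g
        change ((a * b : P) : G) * g * ((a * b : P) : G)⁻¹ =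
          (a : G) * ((b : G) * g * (b : G)⁻¹) * (a : G)⁻¹
        push_cast
        group }
  have hc : ∀ u ∈ P, u * (c : G) = c * u := fun u hu => Subgroup.mem_centralizer_iff.1 c.2 u hu
  have h3 := @sum_fixed p _ (ResidueField 𝒪) P G (ResidueField 𝒪) _ _ _ inst _ hP _ _
    (fun g => residue 𝒪 (x.coeff g * y.coeff (g⁻¹ * c))) (by
      intro a g
      change residue 𝒪 (x.coeff ((a : G) * g * (a : G)⁻¹) *
        y.coeff (((a : G) * g * (a : G)⁻¹)⁻¹ * c)) = residue 𝒪 (x.coeff g * y.coeff (g⁻¹ * c))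
      have e1 : ((a : G) * g * (a : G)⁻¹)⁻¹ * c = (a : G) * (g⁻¹ * c) * (a : G)⁻¹ := by
        have h4 := hc _ (P.inv_mem a.2)
        calc ((a : G) * g * (a : G)⁻¹)⁻¹ * c = (a : G) * g⁻¹ * ((a : G)⁻¹ * c) := by group
          _ = (a : G) * g⁻¹ * (c * (a : G)⁻¹) := by rw [h4]
          _ = (a : G) * (g⁻¹ * c) * (a : G)⁻¹ := by group
      rw [e1, conj_coeff x _ _ (hx a a.2), conj_coeff y _ _ (hy a a.2)])
    (Finset.univ.filter (fun g => g ∈ Subgroup.centralizer (P : Set G))) (by
      intro g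
      rw [Finset.mem_filter, Subgroup.mem_centralizer_iff]
      constructor
      · rintro ⟨_, h⟩ a
        change (a : G) * g * (a : G)⁻¹ = g
        rw [h a a.2]
        simp
      · intro h
        refine ⟨Finset.mem_univ _, fun a ha => ?_⟩
        have h5 : a * g * a⁻¹ = g := h ⟨a, ha⟩
        calc a * g = (a * g * a⁻¹) * a := by group
          _ = g * a := by rw [h5])
  rw [h3]
  refine Finset.sum_bij' (fun g hg => ⟨g, (Finset.mem_filter.1 hg).2⟩) (fun g _ => (g : G))
    (fun g _ => Finset.mem_univ _)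
    (fun g _ => Finset.mem_filter.2 ⟨Finset.mem_univ _, g.2⟩) (fun _ _ => rfl) (fun _ _ => rfl) ?_
  intro g hg
  rw [br_coeff, br_coeff, map_mul]
  rfl

end Pool.Agent.Helper36.EP.BRM
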